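import Mathlib

/-!
# Choice of an algebraically closed field of finite transcendence degree

Field theory for the piece `D1a` of helper418.
-/

set_option autoImplicit false

open Polynomial Cardinal

namespace Run7.h283.EU

/-- `x` is a root of a nonzero polynomial with coefficients in the set `A` -/
def Alg {Ω : Type} [Field Ω] (A : Set Ω) (x : Ω) : Prop :=
  ∃ p : Polynomial Ω, p ≠ 0 ∧ (∀ i, p.coeff i ∈ A) ∧ p.eval x = 0

section
variable {Ω : Type} [Field Ω]

theorem Alg.mono {A B : Set Ω} (h : A ⊆ B) {x : Ω} (hx : Alg A x) : Alg B x := by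
  obtain ⟨p, h0, hc, he⟩ := hx
  exact ⟨p, h0, fun i => h (hc i), he⟩

theorem Alg.map {Ω' : Type} [Field Ω'] (f : Ω →+* Ω') {A : Set Ω} {B : Set Ω'}
    (h : ∀ a ∈ A, f a ∈ B) {x : Ω} (hx : Alg A x) : Alg B (f x) := by
  obtain ⟨p, h0, hc, he⟩ := hx
  refine ⟨p.map f, (Polynomial.map_ne_zero_iff f.injective).2 h0, fun i => ?_, ?_⟩
  · rw [coeff_map]; exact h _ (hc i)
  · rw [eval_map, eval₂_hom, he, map_zero]

theorem alg_iff {F : Type} [Field F] [Algebra F Ω] (K : IntermediateField F Ω) (x : Ω) :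
    IsAlgebraic K x ↔ Alg (K : Set Ω) x := by
  constructor
  · rintro ⟨p, h0, he⟩
    refine ⟨p.map (algebraMap K Ω),
      (Polynomial.map_ne_zero_iff (algebraMap K Ω).injective).2 h0, fun i => ?_, ?_⟩
    · rw [coeff_map]; exact (p.coeff i).2
    · rw [eval_map_algebraMap, he]
  · rintro ⟨p, h0, hc, he⟩
    have : p ∈ Polynomial.lifts (algebraMap K Ω) := by
      rw [Polynomial.lifts_iff_coeff_lifts]
      intro i
      exact ⟨⟨p.coeff i, hc i⟩, rfl⟩
    obtain ⟨q, rfl⟩ := (Polynomial.mem_lifts _).1 this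
    refine ⟨q, ?_, ?_⟩
    · rintro rfl; simp at h0
    · rwa [eval_map_algebraMap] at he

theorem alg_fin {F : Type} [Field F] [Algebra F Ω] {S : Set Ω} {x : Ω}
    (h : Alg (IntermediateField.adjoin F S : Set Ω) x) :
    ∃ T : Finset Ω, (T : Set Ω) ⊆ S ∧
      Alg (IntermediateField.adjoin F (T : Set Ω) : Set Ω) x := by
  classical
  obtain ⟨p, h0, hc, he⟩ := h
  choose T hT hm using fun i => IntermediateField.exists_finset_of_mem_adjoin (hc i)
  refine ⟨p.support.biUnion T, ?_, p, h0, fun i => ?_, he⟩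
  · intro y hy
    simp only [Finset.coe_biUnion, Set.mem_iUnion] at hy
    obtain ⟨i, _, hi⟩ := hy
    exact hT i hi
  · by_cases hi : i ∈ p.support
    · refine IntermediateField.adjoin.mono F _ _ ?_ (hm i)
      intro y hy
      simp only [Finset.coe_biUnion, Set.mem_iUnion]
      exact ⟨i, hi, hy⟩
    · rw [notMem_support_iff.1 hi]; exact zero_mem _

end

theorem d1a_core (Ω : Type) [Field Ω] [Algebra ℂ Ω] [IsAlgClosed Ω] (𝔉 : IntermediateField ℂ Ω)
    (ω κ : Type) [Finite ω] [Finite κ] (a : ω → Ω) (d : ℕ) (t : Fin d → ω) (h : κ → 𝔉)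
    (htr : Algebra.trdeg 𝔉 (IntermediateField.adjoin 𝔉 (Set.range a)) = d)
    (hai : AlgebraicIndependent 𝔉 (fun b => a (t b))) :
    ∃ 𝔎 : IntermediateField ℂ Ω, IsAlgClosed 𝔎 ∧ (∃ N : ℕ, Algebra.trdeg ℂ 𝔎 = N) ∧
      (∀ j, (h j : Ω) ∈ 𝔎) ∧ (∀ x ∈ 𝔎, IsAlgebraic 𝔉 x) ∧
      AlgebraicIndependent 𝔎 (fun b => a (t b)) ∧
      ∀ l, IsAlgebraic (IntermediateField.adjoin 𝔎 (Set.range fun b => a (t b))) (a l) := by
  classical
  set S : Set Ω := Set.range fun b => a (t b) with hS
  -- step 1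
  have h1 : ∀ l, Alg (IntermediateField.adjoin 𝔉 S : Set Ω) (a l) := by
    intro l
    let L := IntermediateField.adjoin 𝔉 (Set.range a)
    let y : Fin d → L := fun b => ⟨a (t b), IntermediateField.subset_adjoin _ _ ⟨t b, rfl⟩⟩
    have hy : AlgebraicIndependent 𝔉 y := AlgebraicIndependent.of_comp L.val hai
    have hb : IsTranscendenceBasis 𝔉 y :=
      hy.isTranscendenceBasis_of_trdeg_le_of_finite (by
        rw [htr, Cardinal.mk_fin])
    have := hb.isAlgebraic_field
    have h2 := (alg_iff (IntermediateField.adjoin 𝔉 (Set.range y))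
      (⟨a l, IntermediateField.subset_adjoin _ _ ⟨l, rfl⟩⟩ : L)).1 (this.isAlgebraic _)
    refine h2.map (L.val : L →+* Ω) (B := (IntermediateField.adjoin 𝔉 S : Set Ω)) ?_
    intro z hz
    have h3 : (L.val : L → Ω) z ∈ (IntermediateField.adjoin 𝔉 (Set.range y)).map L.val :=
      ⟨z, hz, rfl⟩
    rw [IntermediateField.adjoin_map] at h3
    refine IntermediateField.adjoin.mono 𝔉 _ _ ?_ h3
    rintro _ ⟨_, ⟨b, rfl⟩, rfl⟩
    exact ⟨b, rfl⟩
  -- step 2
  have h2 : ∀ l, ∃ T : Finset Ω, (T : Set Ω) ⊆ (𝔉 : Set Ω) ∪ S ∧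
      Alg (IntermediateField.adjoin ℂ (T : Set Ω) : Set Ω) (a l) := by
    intro l
    refine alg_fin ?_
    refine (h1 l).mono ?_
    intro z hz
    have := IntermediateField.restrictScalars_adjoin ℂ 𝔉 S
    rw [← this]
    exact hz
  choose T hT hTa using h2
  set C : Set Ω := (⋃ l, ((T l : Set Ω) ∩ (𝔉 : Set Ω))) ∪ Set.range (fun j => (h j : Ω)) with hC
  have hCfin : C.Finite := by
    refine Set.Finite.union (Set.finite_iUnion fun l => ?_) (Set.finite_range _)
    exact (T l).finite_toSet.inter_of_left _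
  have hCF : C ⊆ (𝔉 : Set Ω) := by
    rintro x (hx | ⟨j, rfl⟩)
    · obtain ⟨l, hl⟩ := Set.mem_iUnion.1 hx
      exact hl.2
    · exact (h j).2
  set K0 : IntermediateField ℂ Ω := IntermediateField.adjoin ℂ C with hK0
  have hK0F : K0 ≤ 𝔉 := IntermediateField.adjoin_le_iff.2 hCF
  obtain ⟨𝔎, hmem, hcl⟩ : ∃ 𝔎 : IntermediateField ℂ Ω, (∀ x, x ∈ 𝔎 ↔ Alg (K0 : Set Ω) x) ∧
      IsAlgClosed 𝔎 :=
    ⟨(algebraicClosure K0 Ω).restrictScalars ℂ, fun x =>
      mem_algebraicClosure_iff.trans (alg_iff K0 x),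
      (algebraicClosure.isAlgClosure K0 Ω).isAlgClosed⟩
  have hKF : ∀ x ∈ 𝔎, IsAlgebraic 𝔉 x := fun x hx =>
    (alg_iff 𝔉 x).2 (((hmem x).1 hx).mono hK0F)
  have hself : ∀ x ∈ K0, x ∈ 𝔎 := by
    intro x hx
    rw [hmem]
    refine ⟨Polynomial.X - Polynomial.C x, Polynomial.X_sub_C_ne_zero x, fun i => ?_, by simp⟩
    rw [coeff_sub, coeff_X, coeff_C]
    refine sub_mem ?_ ?_
    · split_ifs
      · exact one_mem _
      · exact zero_mem _
    · split_ifs
      · exact hx
      · exact zero_mem _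
  refine ⟨𝔎, hcl, ?_, ?_, hKF, ?_, ?_⟩
  · -- transcendence degree
    let s : Set 𝔎 := {x | (x : Ω) ∈ C}
    have hsfin : s.Finite := hCfin.preimage Subtype.val_injective.injOn
    have hs : Algebra.IsAlgebraic (Algebra.adjoin ℂ s) 𝔎 := by
      rw [← IntermediateField.isAlgebraic_adjoin_iff_top]
      refine ⟨fun x => ?_⟩
      rw [alg_iff]
      obtain ⟨p, h0, hc, he⟩ := (hmem x).1 x.2
      -- the elements of `K0` come from the field generated by `s`
      have hmap : K0 = (IntermediateField.adjoin ℂ s).map 𝔎.val := by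
        rw [IntermediateField.adjoin_map, hK0]
        congr 1
        ext z
        constructor
        · intro hz
          exact ⟨⟨z, hself z (IntermediateField.subset_adjoin _ _ hz)⟩, hz, rfl⟩
        · rintro ⟨w, hw, rfl⟩
          exact hw
      have hlift : p ∈ Polynomial.lifts (𝔎.val : 𝔎 →+* Ω) := by
        rw [Polynomial.lifts_iff_coeff_lifts]
        intro i
        exact ⟨⟨p.coeff i, hself _ (hc i)⟩, rfl⟩
      obtain ⟨q, rfl⟩ := (Polynomial.mem_lifts _).1 hlift
      refine ⟨q, ?_, fun i => ?_, ?_⟩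
      · rintro rfl; simp at h0
      · have := hc i
        rw [coeff_map] at this
        have h5 : ((𝔎.val : 𝔎 →+* Ω) (q.coeff i)) ∈ (IntermediateField.adjoin ℂ s).map 𝔎.val := by
          rw [← hmap]; exact this
        obtain ⟨w, hw, hw'⟩ := h5
        have : w = q.coeff i := Subtype.ext hw'
        rw [← this]; exact hw
      · have h6 : (𝔎.val : 𝔎 →+* Ω) (q.eval x) = 0 := by
          rw [← Polynomial.eval₂_hom, ← eval_map]
          exact he
        exact (map_eq_zero (𝔎.val : 𝔎 →+* Ω)).1 h6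
    have hle := Algebra.IsAlgebraic.trdeg_le_cardinalMk ℂ s
    have hlt : #s < ℵ₀ := hsfin.lt_aleph0
    obtain ⟨N, hN⟩ := Cardinal.lt_aleph0.1 (hle.trans_lt hlt)
    exact ⟨N, hN⟩
  · intro j
    exact hself _ (IntermediateField.subset_adjoin _ _ (Or.inr ⟨j, rfl⟩))
  · have hb := hai.algebraicClosure
    have hle : ∀ x ∈ 𝔎, x ∈ algebraicClosure 𝔉 Ω := fun x hx =>
      mem_algebraicClosure_iff.2 (hKF x hx)
    let ι : 𝔎 →+* algebraicClosure 𝔉 Ω :=
      { toFun := fun x => ⟨x, hle x x.2⟩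
        map_one' := rfl
        map_mul' := fun _ _ => rfl
        map_zero' := rfl
        map_add' := fun _ _ => rfl }
    let _ : Algebra 𝔎 (algebraicClosure 𝔉 Ω) := ι.toAlgebra
    have : IsScalarTower 𝔎 (algebraicClosure 𝔉 Ω) Ω := IsScalarTower.of_algebraMap_eq fun _ => rfl
    exact hb.restrictScalars ι.injective
  · intro l
    rw [alg_iff]
    refine (hTa l).mono ?_
    have h7 : ∀ z ∈ IntermediateField.adjoin ℂ (T l : Set Ω),
        z ∈ IntermediateField.adjoin 𝔎 S := by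
      intro z hz
      have h8 : IntermediateField.adjoin ℂ (T l : Set Ω) ≤
          (IntermediateField.adjoin 𝔎 S).restrictScalars ℂ := by
        rw [IntermediateField.adjoin_le_iff]
        intro z hz
        rw [SetLike.mem_coe, IntermediateField.mem_restrictScalars]
        rcases hT l hz with hz' | hz'
        · have h9 : z ∈ 𝔎 := hself _ (IntermediateField.subset_adjoin _ _
            (Or.inl (Set.mem_iUnion.2 ⟨l, hz, hz'⟩)))
          obtain ⟨w, hw⟩ : ∃ w : 𝔎, algebraMap 𝔎 Ω w = z := ⟨⟨z, h9⟩, rfl⟩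
          rw [← hw]
          exact IntermediateField.algebraMap_mem _ w
        · exact IntermediateField.subset_adjoin _ _ hz'
      have := h8 hz
      rwa [IntermediateField.mem_restrictScalars] at this
    exact h7

end Run7.h283.EU
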