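import Pool.Agent.Run7.h283.EU.Core
import Pool.Agent.Run7.h418.E.Ug

/-!
Piece `D1a` of helper418.
-/

set_option autoImplicit false

namespace Run7.h283.EU

theorem d1a : Run7.h418.E.D1a := by
  intro Ω _ _ _ 𝔉 ω κ _ _ a d t h htr hai
  exact d1a_core Ω 𝔉 ω κ a d t h htr hai

end Run7.h283.EU
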